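import Mathlib

/-!
Every positive integer `k` is the least good `x` for infinitely many `n`.
-/

set_option autoImplicit false

namespace Pool.Agent.Results.MP_51a963_nt.LeastGoodX

open Finset

/-- For every `k ≥ 1` there are infinitely many `n` such that `k` is the least positive `x < n` for
which `n x ^ 2 + (n - x)` is prime. -/
theorem result : ∀ k : ℕ, 0 < k →
    {n : ℕ | 1 < n ∧ IsLeast {x : ℕ | 0 < x ∧ x < n ∧ (n * x ^ 2 + (n - x)).Prime} k}.Infinite := by
  intro k hk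
  -- distinct large primes
  let p : ℕ → ℕ := fun j => Nat.nth Nat.Prime (k ^ 2 + 1 + j)
  have hpp : ∀ j, (p j).Prime := fun j => Nat.prime_nth_prime _
  have hinj : Function.Injective p := by
    intro i j hij
    have h1 := Nat.nth_injective (p := Nat.Prime) Nat.infinite_setOfPred_prime hij
    omega
  have hlarge : ∀ j, k ^ 2 + 1 + j < p j := by
    intro j
    have h1 : ∀ i : ℕ, i + 2 ≤ Nat.nth Nat.Prime i := by
      intro i
      induction i with
      | zero => rw [Nat.nth_prime_zero_eq_two]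
      | succ i ih =>
        have h2 : Nat.nth Nat.Prime i < Nat.nth Nat.Prime (i + 1) :=
          Nat.nth_strictMono Nat.infinite_setOfPred_prime (Nat.lt_succ_self i)
        omega
    have := h1 (k ^ 2 + 1 + j)
    change k ^ 2 + 1 + j < Nat.nth Nat.Prime (k ^ 2 + 1 + j)
    omega
  -- the classes
  have ha : ∀ j : ℕ, ∃ a : ℕ, j < k → 0 < j → (((j : ZMod (p j)) ^ 2 + 1) * a - j) = 0 := by
    intro j
    have hf : Fact (p j).Prime := ⟨hpp j⟩
    by_cases hj : j < k
    · have h0 : ((j : ZMod (p j)) ^ 2 + 1) ≠ 0 := by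
        intro h
        have h1 : ((j ^ 2 + 1 : ℕ) : ZMod (p j)) = 0 := by push_cast; exact h
        have h2 := Nat.le_of_dvd (by omega) ((ZMod.natCast_eq_zero_iff _ _).1 h1)
        have h3 := hlarge j
        have h4 : j ^ 2 ≤ k ^ 2 := Nat.pow_le_pow_left hj.le 2
        omega
      refine ⟨((j : ZMod (p j)) * ((j : ZMod (p j)) ^ 2 + 1)⁻¹).val, fun _ _ => ?_⟩
      rw [ZMod.natCast_val, ZMod.cast_id]
      field_simp
      ring
    · exact ⟨0, fun h1 _ => absurd h1 hj⟩
  choose a ha using ha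
  set J : Finset ℕ := Finset.Ico 1 k with hJ
  obtain ⟨c, hc⟩ := Nat.chineseRemainderOfFinset a p J (fun i _ => (hpp i).ne_zero)
    (fun i _ j _ hij => (Nat.coprime_primes (hpp i) (hpp j)).2 fun h => hij (hinj h))
  set P : ℕ := ∏ j ∈ J, p j with hP
  have hP0 : 0 < P := Finset.prod_pos fun j _ => (hpp j).pos
  set M : ℕ := (k ^ 2 + 1) * P with hM
  have hM0 : M ≠ 0 := by positivity
  -- the class of the prime
  have hcop : IsCoprime ((((k : ℤ) ^ 2 + 1) * c - k)) (M : ℤ) := by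
    rw [hM, hP]
    push_cast
    refine IsCoprime.mul_right ?_ (IsCoprime.prod_right fun j hj => ?_)
    · -- `k` and `k ^ 2 + 1`
      refine ⟨k, 1 - k * c, ?_⟩
      ring
    · rw [hJ, Finset.mem_Ico] at hj
      have hf : Fact (p j).Prime := ⟨hpp j⟩
      rw [isCoprime_comm, Prime.coprime_iff_not_dvd (Nat.prime_iff_prime_int.1 (hpp j))]
      intro hd
      have h1 : ((((k : ℤ) ^ 2 + 1) * c - k : ℤ) : ZMod (p j)) = 0 :=
        (ZMod.intCast_zmod_eq_zero_iff_dvd _ _).2 hd
      push_cast at h1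
      have h2 : (c : ZMod (p j)) = a j := by
        rw [ZMod.natCast_eq_natCast_iff]
        exact hc j (by rw [hJ, Finset.mem_Ico]; exact hj)
      have h3 := ha j hj.2 hj.1
      rw [h2] at h1
      have h4 : (((k * j - 1) * (k - j) : ℕ) : ZMod (p j)) = 0 := by
        have h5 : 1 ≤ k * j := Nat.mul_pos hk hj.1
        rw [Nat.cast_mul, Nat.cast_sub h5, Nat.cast_sub hj.2.le, Nat.cast_mul, Nat.cast_one]
        linear_combination ((j : ZMod (p j)) ^ 2 + 1) * h1 - ((k : ZMod (p j)) ^ 2 + 1) * h3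
      rw [ZMod.natCast_eq_zero_iff, (hpp j).dvd_mul] at h4
      have h6 := hlarge j
      rcases h4 with h4 | h4
      · have h7 : 0 < k * j - 1 := by
          have : 2 ≤ k * j := by nlinarith [hj.1, hj.2]
          omega
        have h8 := Nat.le_of_dvd h7 h4
        have h9 : k * j ≤ k ^ 2 := by rw [sq]; exact Nat.mul_le_mul_left _ hj.2.le
        omega
      · have h8 := Nat.le_of_dvd (by omega) h4
        have h9 : k ≤ k ^ 2 := Nat.le_self_pow (by norm_num) k
        omega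
  refine Set.infinite_of_forall_exists_gt fun N => ?_
  obtain ⟨q, hq1, hq2, hq3⟩ := Nat.forall_exists_prime_gt_and_zmodEq
    ((k ^ 2 + 1) * (N + k + 2 + ∑ j ∈ J, p j)) hM0 hcop
  -- the integer `n`
  have hd1 : (M : ℤ) ∣ (((k : ℤ) ^ 2 + 1) * c - k) - q := hq3.dvd
  obtain ⟨m, hm⟩ := hd1
  have hkk : ((k ^ 2 + 1 : ℕ) : ℤ) ∣ ((q + k : ℕ) : ℤ) := by
    refine ⟨c - P * m, ?_⟩
    rw [hM] at hm
    push_cast at hm ⊢
    linear_combination (-1 : ℤ) * hm
  obtain ⟨n, hn⟩ := Int.natCast_dvd_natCast.1 hkk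
  have hn' : (n : ℤ) = c - P * m := by
    have h1 : ((k : ℤ) ^ 2 + 1) ≠ 0 := by positivity
    apply mul_left_cancel₀ h1
    have h2 : ((q : ℤ) + k) = ((k : ℤ) ^ 2 + 1) * n := by exact_mod_cast hn
    rw [hM] at hm
    push_cast at hm
    linear_combination (-1 : ℤ) * hm - h2
  have hnN : N + k + 2 + ∑ j ∈ J, p j < n := by
    have h1 : (k ^ 2 + 1) * (N + k + 2 + ∑ j ∈ J, p j) < (k ^ 2 + 1) * n := by omega
    exact Nat.lt_of_mul_lt_mul_left h1
  have hfk : n * k ^ 2 + (n - k) = q := by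
    have h1 : k ≤ n := by omega
    zify [h1]
    have h2 : ((q : ℤ) + k) = ((k : ℤ) ^ 2 + 1) * n := by exact_mod_cast hn
    linear_combination (-1 : ℤ) * h2
  refine ⟨n, ⟨by omega, ⟨hk, by omega, by rw [hfk]; exact hq2⟩, ?_⟩, by omega⟩
  rintro j ⟨hj0, hjn, hjp⟩
  by_contra hlt
  have hjk : j < k := not_le.1 hlt
  have hjJ : j ∈ J := by rw [hJ, Finset.mem_Ico]; exact ⟨hj0, hjk⟩
  have hdvd : p j ∣ n * j ^ 2 + (n - j) := by
    have hf : Fact (p j).Prime := ⟨hpp j⟩
    rw [← ZMod.natCast_eq_zero_iff, Nat.cast_add, Nat.cast_mul, Nat.cast_pow,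
      Nat.cast_sub hjn.le]
    have h2 : (c : ZMod (p j)) = a j := by
      rw [ZMod.natCast_eq_natCast_iff]
      exact hc j hjJ
    have h3 : (n : ZMod (p j)) = a j := by
      have h4 : ((n : ℤ) : ZMod (p j)) = ((c - P * m : ℤ) : ZMod (p j)) := by rw [hn']
      have h5 : ((P : ℕ) : ZMod (p j)) = 0 := by
        rw [ZMod.natCast_eq_zero_iff]
        exact Finset.dvd_prod_of_mem p hjJ
      push_cast at h4
      rw [h4, h5, h2]
      ring
    rw [h3]
    linear_combination ha j hjk hj0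
  have h6 := (Nat.prime_dvd_prime_iff_eq (hpp j) hjp).1 hdvd
  have h7 : p j ≤ ∑ i ∈ J, p i := Finset.single_le_sum (fun i _ => Nat.zero_le _) hjJ
  have h8 : n ≤ n * j ^ 2 := Nat.le_mul_of_pos_right _ (by positivity)
  omega

end Pool.Agent.Results.MP_51a963_nt.LeastGoodX
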